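import Pool.Agent.Lib.FOLFP.Def

/-!
# Typed first-order definability

A wrapper around `BDef` for the index range `N` itself: relations of tuples of elements of
`Fin N`.
-/

namespace Pool.Agent.Lib.MP_37c7bf_co_Poly

open Pool.Agent.Lib.PolyTM Pool.Agent.Lib.FOLFP Function

variable {W1 : Type} [DecidableEq W1] {ι : W1 → Type} [∀ w, Fintype (ι w)]
  [∀ w, DecidableEq (ι w)]

/-- Definability of a relation of tuples of elements of `Fin N`. -/
def TDef (ι : W1 → Type) [∀ w, Fintype (ι w)] (C : ℕ → Arr (Option W1) → Prop)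
    (κ : Type) [DecidableEq κ] (R : ∀ N, Arr (Option W1) → (κ → Fin N) → Prop) : Prop :=
  BDef ι (0 + 1) C κ (fun N a e => ∃ h : ∀ x, e x < N, R N a fun x => ⟨e x, h x⟩)

namespace TDef

variable {C : ℕ → Arr (Option W1) → Prop} {κ κ' lam : Type} [DecidableEq κ] [DecidableEq κ']
  [DecidableEq lam] {R S : ∀ N, Arr (Option W1) → (κ → Fin N) → Prop}

theorem congr (h : TDef ι C κ R) (hRS : ∀ N a (e : κ → Fin N), C N a → (R N a e ↔ S N a e)) :
    TDef ι C κ S :=
  BDef.congr h fun N a e hC _ =>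
    ⟨fun ⟨h1, h2⟩ => ⟨h1, (hRS N a _ hC).1 h2⟩, fun ⟨h1, h2⟩ => ⟨h1, (hRS N a _ hC).2 h2⟩⟩

theorem of_bdef {R' : ℕ → Arr (Option W1) → (κ → ℕ) → Prop} (h : BDef ι (0 + 1) C κ R')
    (hR : ∀ N a (e : κ → Fin N), C N a → (R N a e ↔ R' N a fun x => e x)) : TDef ι C κ R := by
  refine BDef.congr h fun N a e hC he => ?_
  have he' : ∀ x, e x < N := fun x => by simpa using he x
  constructor
  · intro g
    exact ⟨he', (hR N a _ hC).2 g⟩
  · rintro ⟨h1, h2⟩
    exact (hR N a _ hC).1 h2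

theorem not (h : TDef ι C κ R) : TDef ι C κ (fun N a e => ¬ R N a e) := by
  refine BDef.congr (BDef.not h) fun N a e _ he => ?_
  have he' : ∀ x, e x < N := fun x => by simpa using he x
  constructor
  · intro g
    exact ⟨he', fun g' => g ⟨he', g'⟩⟩
  · rintro ⟨_, h2⟩ ⟨_, h4⟩
    exact h2 h4

theorem and (h : TDef ι C κ R) (h' : TDef ι C κ S) :
    TDef ι C κ (fun N a e => R N a e ∧ S N a e) := by
  refine BDef.congr (BDef.and h h') fun N a e _ _ => ?_
  constructor
  · rintro ⟨⟨h1, h2⟩, ⟨h3, h4⟩⟩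
    exact ⟨h1, h2, h4⟩
  · rintro ⟨h1, h2, h4⟩
    exact ⟨⟨h1, h2⟩, ⟨h1, h4⟩⟩

theorem or (h : TDef ι C κ R) (h' : TDef ι C κ S) :
    TDef ι C κ (fun N a e => R N a e ∨ S N a e) :=
  (h.not.and h'.not).not.congr (by intro N a e _; tauto)

theorem imp (h : TDef ι C κ R) (h' : TDef ι C κ S) :
    TDef ι C κ (fun N a e => R N a e → S N a e) :=
  (h.not.or h').congr (by intro N a e _; tauto)

theorem iff (h : TDef ι C κ R) (h' : TDef ι C κ S) :
    TDef ι C κ (fun N a e => (R N a e ↔ S N a e)) :=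
  ((h.imp h').and (h'.imp h)).congr (by intro N a e _; tauto)

theorem const (p : Prop) : TDef ι C κ (fun _ _ _ => p) :=
  of_bdef (BDef.const p) fun _ _ _ _ => Iff.rfl

theorem forall' {J : Type*} [Finite J] {R : J → ∀ N, Arr (Option W1) → (κ → Fin N) → Prop}
    (h : ∀ j, TDef ι C κ (R j)) : TDef ι C κ (fun N a e => ∀ j, R j N a e) := by
  refine BDef.congr (BDef.forall' h) fun N a e _ he => ?_
  have he' : ∀ x, e x < N := fun x => by simpa using he x
  constructor
  · intro g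
    exact ⟨he', fun j => (g j).2⟩
  · rintro ⟨h1, h2⟩ j
    exact ⟨h1, h2 j⟩

theorem exists' {J : Type*} [Finite J] {R : J → ∀ N, Arr (Option W1) → (κ → Fin N) → Prop}
    (h : ∀ j, TDef ι C κ (R j)) : TDef ι C κ (fun N a e => ∃ j, R j N a e) :=
  (forall' fun j => (h j).not).not.congr (by intro N a e _; push Not; rfl)

theorem subst [Fintype κ] (f : κ → κ') (h : TDef ι C κ R) :
    TDef ι C κ' (fun N a e => R N a (fun x => e (f x))) := by
  refine BDef.congr (BDef.subst (κ' := κ') f h) fun N a e _ he => ?_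
  have he' : ∀ x, e x < N := fun x => by simpa using he x
  constructor
  · rintro ⟨h1, h2⟩
    exact ⟨he', h2⟩
  · rintro ⟨h1, h2⟩
    exact ⟨fun x => h1 _, h2⟩

/-- Existential quantification over tuples. -/
theorem ex [Fintype lam] {R : ∀ N, Arr (Option W1) → (κ ⊕ lam → Fin N) → Prop}
    (h : TDef ι C (κ ⊕ lam) R) :
    TDef ι C κ (fun N a e => ∃ t : lam → Fin N, R N a (Sum.elim e t)) := by
  refine BDef.congr (BDef.ex h) fun N a e _ he => ?_
  have he' : ∀ x, e x < N := fun x => by simpa using he x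
  constructor
  · rintro ⟨t, _, h1, h2⟩
    refine ⟨he', fun l => ⟨t l, h1 (Sum.inr l)⟩, ?_⟩
    refine (iff_of_eq (congrArg (R N a) ?_)).mp h2
    funext x
    cases x <;> rfl
  · rintro ⟨h1, t, h2⟩
    refine ⟨fun l => t l, fun l => by simpa using (t l).2, ?_, ?_⟩
    · intro x
      cases x with
      | inl x => exact h1 x
      | inr x => exact (t x).2
    · refine (iff_of_eq (congrArg (R N a) ?_)).mp h2
      funext x
      cases x <;> rfl

theorem all [Fintype lam] {R : ∀ N, Arr (Option W1) → (κ ⊕ lam → Fin N) → Prop}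
    (h : TDef ι C (κ ⊕ lam) R) :
    TDef ι C κ (fun N a e => ∀ t : lam → Fin N, R N a (Sum.elim e t)) :=
  h.not.ex.not.congr (by intro N a e _; push Not; rfl)

/-- Existential quantification over one element. -/
theorem ex1 {R : ∀ N, Arr (Option W1) → (κ ⊕ Unit → Fin N) → Prop}
    (h : TDef ι C (κ ⊕ Unit) R) :
    TDef ι C κ (fun N a e => ∃ t : Fin N, R N a (Sum.elim e fun _ => t)) :=
  h.ex.congr (by
    intro N a e _
    constructor
    · rintro ⟨t, ht⟩
      exact ⟨t (), ht⟩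
    · rintro ⟨t, ht⟩
      exact ⟨fun _ => t, ht⟩)

theorem all1 {R : ∀ N, Arr (Option W1) → (κ ⊕ Unit → Fin N) → Prop}
    (h : TDef ι C (κ ⊕ Unit) R) :
    TDef ι C κ (fun N a e => ∀ t : Fin N, R N a (Sum.elim e fun _ => t)) :=
  h.not.ex1.not.congr (by intro N a e _; push Not; rfl)

theorem eq (x y : κ) : TDef ι C κ (fun _ _ e => e x = e y) :=
  of_bdef (BDef.eq x y) fun _ _ _ _ => by rw [Fin.ext_iff]

/-- The adjacency relation given by the input. -/
def Adj (N : ℕ) (a : Arr (Option W1)) (x y : Fin N) : Prop := BAdj N a x y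

theorem adj (x y : κ) : TDef ι C κ (fun N a e => Adj N a (e x) (e y)) :=
  of_bdef (BDef.adj x y) fun _ _ _ _ => Iff.rfl

/-- The contents of a table. -/
def Tab (ι : W1 → Type) [∀ w, Fintype (ι w)] (N : ℕ) (a : Arr (Option W1)) (w : W1)
    (E : ι w → Fin N) : Prop := BA ι (0 + 1) N a w (fun i => E i)

theorem tab (w : W1) (f : ι w → κ) : TDef ι C κ (fun N a e => Tab ι N a w fun i => e (f i)) :=
  of_bdef (BDef.arr w f) fun _ _ _ _ => Iff.rfl

end TDef

/-- Typed specification of the fixed point computation. -/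
theorem tlfp_step {C : ℕ → Arr (Option W1) → Prop} (w : W1)
    {R : ∀ N, Arr (Option W1) → (ι w → Fin N) → Prop} (h : TDef ι C (ι w) R)
    (hC : ∀ N M M', (∀ w' ≠ some w, M' w' = M w') → C N M → C N M') :
    PDef (Sum.elim (bar ι (0 + 1)) (bar ι (0 + 1))) (fun N σ τ =>
      C N (mn σ) → (∀ l, mn σ (some w) l = false) →
        τ.o = σ.o ∧ (∀ w' ≠ some w, mn τ w' = mn σ w') ∧
        (∀ E : ι w → Fin N, R N (mn τ) E → TDef.Tab ι N (mn τ) w E) ∧
        ∀ P : (ι w → Fin N) → Prop,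
          (∀ M : Arr (Option W1), (∀ w' ≠ some w, M w' = mn τ w') →
            (∀ E : ι w → Fin N, TDef.Tab ι N M w E → P E) →
            ∀ E : ι w → Fin N, R N M E → P E) →
          ∀ E : ι w → Fin N, TDef.Tab ι N (mn τ) w E → P E) := by
  refine (blfp_step w h hC).mono ?_
  intro N σ τ hs hCσ hσ
  obtain ⟨s1, s2, s3, s4⟩ := hs hCσ hσ
  refine ⟨s1, s2, ?_, ?_⟩
  · intro E hR
    exact s3 (fun i => E i) (fun i => by simp) ⟨fun i => (E i).2, hR⟩
  · intro P hP E hE
    have := s4 (fun E' => ∀ h : ∀ i, E' i < N, P fun i => ⟨E' i, h i⟩) ?_ (fun i => E i)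
      (fun i => by simp) hE
    · exact this fun i => (E i).2
    · intro M hM hMP E' _ ⟨_, hR⟩ h'
      refine hP M hM ?_ _ hR
      intro E'' hE''
      exact hMP (fun i => E'' i) (fun i => by simp) hE'' fun i => (E'' i).2

/-- Output of the truth value of a typed definable statement. -/
theorem temit_step {C : ℕ → Arr (Option W1) → Prop}
    {R : ∀ N, Arr (Option W1) → (Empty → Fin N) → Prop} (h : TDef ι C Empty R) :
    PDef (Sum.elim (bar ι (0 + 1)) (bar ι (0 + 1))) (fun N σ τ => C N (mn σ) →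
      ∃ b : Bool, τ.o = σ.o ++ [b] ∧ (b = true ↔ R N (mn σ) fun x => x.elim)) := by
  refine (emit_step h).mono ?_
  intro N σ τ hs hC
  obtain ⟨b, h1, h2⟩ := hs hC
  refine ⟨b, h1, h2.trans ?_⟩
  constructor
  · rintro ⟨_, h⟩
    refine (iff_of_eq (congrArg (R N (mn σ)) ?_)).mp h
    funext x
    exact x.elim
  · intro h
    refine ⟨fun x => x.elim, ?_⟩
    refine (iff_of_eq (congrArg (R N (mn σ)) ?_)).mp h
    funext x
    exact x.elim

end Pool.Agent.Lib.MP_37c7bf_co_Poly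

namespace Pool.Agent.Lib.MP_37c7bf_co_Poly

open Pool.Agent.Lib.PolyTM Pool.Agent.Lib.FOLFP Function Turing

/-! ### Small graphs -/

section small

variable {W1 : Type} [DecidableEq W1] {ι : W1 → Type} [∀ w, Fintype (ι w)]
  [∀ w, DecidableEq (ι w)] {D : ℕ} {C : ℕ → Arr (Option W1) → Prop} {κ : Type} [DecidableEq κ]

theorem lt_pow_succ {N x : ℕ} (h : x < N) : x < N ^ (D + 1) := by
  have h1 : 0 < N ^ D := pow_pos (by omega) _
  have h2 : N ^ (D + 1) = N ^ D * N := pow_succ _ _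
  nlinarith

theorem bd_lt_card (c : ℕ) : BDef ι (D + 1) C κ (fun N _ _ => c < N) := by
  have h : BDef ι (D + 1) C (κ ⊕ Unit) (fun N _ e => e (.inr ()) < N ∧ e (.inr ()) = c) :=
    (BDef.isVert _).and (BDef.isConst c _)
  refine h.ex1.congr ?_
  intro N a e _ _
  constructor
  · rintro ⟨t, _, h1, h2⟩
    have h1 : t < N := h1
    have h2 : t = c := h2
    omega
  · intro h
    exact ⟨c, lt_pow_succ h, h, rfl⟩

theorem bd_card (c : ℕ) : BDef ι (D + 1) C κ (fun N _ _ => N = c) := by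
  have h : BDef ι (D + 1) C κ (fun N _ _ => (c = 0 ∨ c - 1 < N) ∧ ¬ c < N) :=
    ((BDef.const _).or (bd_lt_card _)).and (bd_lt_card _).not
  refine h.congr ?_
  intro N a e _ _
  omega

theorem bd_adjConst (c d : ℕ) : BDef ι (D + 1) C κ (fun N a _ => BAdj N a c d) := by
  have h : BDef ι (D + 1) C (κ ⊕ Fin 2) (fun N a e => e (.inr 0) = c ∧
      e (.inr 1) = d ∧ BAdj N a (e (.inr 0)) (e (.inr 1))) :=
    (BDef.isConst c _).and ((BDef.isConst d _).and (BDef.adj _ _))
  refine h.ex.congr ?_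
  intro N a e _ _
  constructor
  · rintro ⟨t, _, h1, h2, h3⟩
    have h1 : t 0 = c := h1
    have h2 : t 1 = d := h2
    have h3 : BAdj N a (t 0) (t 1) := h3
    rwa [h1, h2] at h3
  · intro h
    refine ⟨![c, d], ?_, rfl, rfl, h⟩
    intro l
    fin_cases l
    · exact lt_pow_succ h.1
    · exact lt_pow_succ h.2.1

/-- The finitely many small cases. -/
def SmallCase (n₀ : ℕ) (small : ∀ n, SimpleGraph (Fin n) → Prop) (N : ℕ) (A : ℕ → ℕ → Prop) :
    Prop :=
  ∃ n : Fin n₀, ∃ H : SimpleGraph (Fin n), small n H ∧ N = n ∧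
    ∀ i j : Fin n, A i j ↔ H.Adj i j

theorem bd_small (n₀ : ℕ) (small : ∀ n, SimpleGraph (Fin n) → Prop) :
    BDef ι (D + 1) C κ (fun N a _ => SmallCase n₀ small N (BAdj N a)) := by
  refine BDef.exists' fun n => BDef.exists' fun H => (BDef.const _).and ((bd_card _).and ?_)
  exact BDef.forall' fun i => BDef.forall' fun j => (bd_adjConst _ _).iff (BDef.const _)

theorem smallCase_iff (I : Graph) (n₀ : ℕ) (small : ∀ n, SimpleGraph (Fin n) → Prop) :
    SmallCase n₀ small I.n (adjN I) ↔ I.n < n₀ ∧ small I.n I.G := by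
  obtain ⟨n, G⟩ := I
  constructor
  · rintro ⟨n1, H, h1, h2, h3⟩
    have h2 : n = n1 := h2
    subst h2
    have hG : G = H := by
      ext i j
      rw [← h3 i j]
      constructor
      · intro h; exact ⟨i.2, j.2, h⟩
      · rintro ⟨_, _, h⟩; exact h
    subst hG
    exact ⟨n1.2, h1⟩
  · rintro ⟨h1, h2⟩
    have h1 : n < n₀ := h1
    refine ⟨⟨n, h1⟩, G, h2, rfl, fun i j => ?_⟩
    constructor
    · rintro ⟨_, _, h⟩; exact h
    · intro h; exact ⟨i.2, j.2, h⟩

end small

theorem adj_typed {I : Graph} {a : Arr (Option Unit)} (h : BAdj I.n a = adjN I) :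
    TDef.Adj I.n a = I.G.Adj := by
  funext x y
  apply propext
  unfold TDef.Adj
  rw [h]
  constructor
  · rintro ⟨_, _, h⟩; exact h
  · intro h; exact ⟨x.2, y.2, h⟩

end Pool.Agent.Lib.MP_37c7bf_co_Poly
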