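import Pool.Agent.Lib.MP_37c7bf_co_Dense.Main

/-!
# The closure computed by the machine, and the acceptance condition

`Step G M` is the one-step operator whose inflationary fixed point is computed by the machine. The
relation `cl s v` says that `v` lies in the cluster generated by the seed `s`.
-/

namespace Pool.Agent.Lib.MP_37c7bf_co_Poly

open Function

variable {V : Type*}

/-- The vertices `s 0, …, s 13` are different and `s 0, …, s 9` are adjacent to
`s 10, …, s 13`. -/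
def Seed (G : SimpleGraph V) (s : Fin 14 → V) : Prop :=
  Injective s ∧ ∀ i j : Fin 14, (i : ℕ) < 10 → 10 ≤ (j : ℕ) → G.Adj (s i) (s j)

/-- `S` and `T` have `c` common vertices and `binom (4 - c) 2` connecting edges which form a graph
of maximum degree at most two, for some `c ≤ 3`. -/
def Glue (G : SimpleGraph V) (S T : V → Prop) : Prop :=
  ∃ c : Fin 4, ∃ x : Fin c → V, ∃ a b : Fin ((4 - (c : ℕ)).choose 2) → V,
    (Injective x ∧ ∀ i, S (x i) ∧ T (x i)) ∧
    (∀ i, S (a i) ∧ ¬ T (a i) ∧ T (b i) ∧ ¬ S (b i) ∧ G.Adj (a i) (b i)) ∧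
    (∀ i j, a i = a j → b i = b j → i = j) ∧
    (∀ i j l, a i = a j → a i = a l → i = j ∨ i = l ∨ j = l) ∧
    (∀ i j l, b i = b j → b i = b l → i = j ∨ i = l ∨ j = l)

/-- One step of the closure. -/
def Step (G : SimpleGraph V) (M : (Fin 14 → V) → V → Prop) (s : Fin 14 → V) (v : V) : Prop :=
  Seed G s ∧ ((∃ i, v = s i) ∨
    (∃ u : Fin 3 → V, Injective u ∧ ∀ i, M s (u i) ∧ G.Adj v (u i)) ∨
    ∃ t : Fin 14 → V, Seed G t ∧ M t v ∧ Glue G (M s) (M t))

/-- `cl` is the inflationary fixed point of `Step G`. -/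
structure IsClosure (G : SimpleGraph V) (cl : (Fin 14 → V) → V → Prop) : Prop where
  closed : ∀ s v, Step G cl s v → cl s v
  ind : ∀ P : (Fin 14 → V) → V → Prop,
    (∀ M : (Fin 14 → V) → V → Prop, (∀ s v, M s v → P s v) → ∀ s v, Step G M s v → P s v) →
    ∀ s v, cl s v → P s v

/-- A seed whose cluster has at least `2 * k + 3` vertices. -/
def BigSeed (G : SimpleGraph V) (k : ℕ) (cl : (Fin 14 → V) → V → Prop) (s : Fin 14 → V) : Prop :=
  Seed G s ∧ ∃ x : Fin (2 * k + 3) → V, Injective x ∧ ∀ i, cl s (x i)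

/-- The acceptance condition: the vertices `x 0, …, x (m - 1)` form a kernel set, and the kernel
graph is generically rigid. -/
def Accept (G : SimpleGraph V) (k : ℕ) (cl : (Fin 14 → V) → V → Prop) : Prop :=
  ∃ m : Fin (5 * k ^ 2 + 1), ∃ H : SimpleGraph (Fin m), MP_37c7bf_co_Dense.GenericallyRigid H ∧
    ∃ x : Fin m → V, Injective x ∧
      (∀ v, ∃ t, BigSeed G k cl t ∧ cl t v) ∧
      (∀ t, BigSeed G k cl t → ∃ i j l : Fin m, i ≠ j ∧ i ≠ l ∧ j ≠ l ∧
        cl t (x i) ∧ cl t (x j) ∧ cl t (x l)) ∧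
      (∀ s t, BigSeed G k cl s → BigSeed G k cl t → ¬ (∀ u, cl s u ↔ cl t u) →
        ∀ v, cl s v → cl t v → ∃ i, v = x i) ∧
      (∀ v w, G.Adj v w → (∀ t, BigSeed G k cl t → ¬ (cl t v ∧ cl t w)) →
        (∃ i, v = x i) ∧ ∃ i, w = x i) ∧
      ∀ i j, H.Adj i j ↔ (x i ≠ x j ∧
        (G.Adj (x i) (x j) ∨ ∃ t, BigSeed G k cl t ∧ cl t (x i) ∧ cl t (x j)))

end Pool.Agent.Lib.MP_37c7bf_co_Poly
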