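import Pool.Agent.Lib.MP_37c7bf_co_Poly.TDef
import Pool.Agent.Lib.MP_37c7bf_co_Poly.Spec

/-! # Definability of the closure step and of the acceptance condition -/

namespace Pool.Agent.Lib.MP_37c7bf_co_Poly

open Pool.Agent.Lib.PolyTM Pool.Agent.Lib.FOLFP Function

/-! ### The notions for an arbitrary relation -/

section

variable {V : Type*}

/-- `Seed` for a relation. -/
def SeedR (A : V → V → Prop) (s : Fin 14 → V) : Prop :=
  Injective s ∧ ∀ i j : Fin 14, (i : ℕ) < 10 → 10 ≤ (j : ℕ) → A (s i) (s j)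

/-- `Glue` for a relation. -/
def GlueR (A : V → V → Prop) (S T : V → Prop) : Prop :=
  ∃ c : Fin 4, ∃ x : Fin c → V, ∃ a b : Fin ((4 - (c : ℕ)).choose 2) → V,
    (Injective x ∧ ∀ i, S (x i) ∧ T (x i)) ∧
    (∀ i, S (a i) ∧ ¬ T (a i) ∧ T (b i) ∧ ¬ S (b i) ∧ A (a i) (b i)) ∧
    (∀ i j, a i = a j → b i = b j → i = j) ∧
    (∀ i j l, a i = a j → a i = a l → i = j ∨ i = l ∨ j = l) ∧
    (∀ i j l, b i = b j → b i = b l → i = j ∨ i = l ∨ j = l)

/-- `Step` for a relation. -/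
def StepR (A : V → V → Prop) (M : (Fin 14 → V) → V → Prop) (s : Fin 14 → V) (v : V) : Prop :=
  SeedR A s ∧ ((∃ i, v = s i) ∨
    (∃ u : Fin 3 → V, Injective u ∧ ∀ i, M s (u i) ∧ A v (u i)) ∨
    ∃ t : Fin 14 → V, SeedR A t ∧ M t v ∧ GlueR A (M s) (M t))

/-- `BigSeed` for a relation. -/
def BigSeedR (A : V → V → Prop) (k : ℕ) (cl : (Fin 14 → V) → V → Prop) (s : Fin 14 → V) : Prop :=
  SeedR A s ∧ ∃ x : Fin (2 * k + 3) → V, Injective x ∧ ∀ i, cl s (x i)

/-- `Accept` for a relation. -/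
def AcceptR (A : V → V → Prop) (k : ℕ) (cl : (Fin 14 → V) → V → Prop) : Prop :=
  ∃ m : Fin (5 * k ^ 2 + 1), ∃ H : SimpleGraph (Fin m), MP_37c7bf_co_Dense.GenericallyRigid H ∧
    ∃ x : Fin m → V, Injective x ∧
      (∀ v, ∃ t, BigSeedR A k cl t ∧ cl t v) ∧
      (∀ t, BigSeedR A k cl t → ∃ i j l : Fin m, i ≠ j ∧ i ≠ l ∧ j ≠ l ∧
        cl t (x i) ∧ cl t (x j) ∧ cl t (x l)) ∧
      (∀ s t, BigSeedR A k cl s → BigSeedR A k cl t → ¬ (∀ u, cl s u ↔ cl t u) →
        ∀ v, cl s v → cl t v → ∃ i, v = x i) ∧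
      (∀ v w, A v w → (∀ t, BigSeedR A k cl t → ¬ (cl t v ∧ cl t w)) →
        (∃ i, v = x i) ∧ ∃ i, w = x i) ∧
      ∀ i j, H.Adj i j ↔ (x i ≠ x j ∧
        (A (x i) (x j) ∨ ∃ t, BigSeedR A k cl t ∧ cl t (x i) ∧ cl t (x j)))

theorem stepR_iff (G : SimpleGraph V) (M : (Fin 14 → V) → V → Prop) (s : Fin 14 → V) (v : V) :
    StepR G.Adj M s v ↔ Step G M s v := Iff.rfl

theorem acceptR_iff (G : SimpleGraph V) (k : ℕ) (cl : (Fin 14 → V) → V → Prop) :
    AcceptR G.Adj k cl ↔ Accept G k cl := Iff.rfl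

end

/-! ### Definability -/

/-- The places of the only table: a seed and a vertex. -/
abbrev ix : Unit → Type := fun _ => Fin 14 ⊕ Unit

/-- The contents of the table. -/
def tcl (N : ℕ) (a : Arr (Option Unit)) (s : Fin 14 → Fin N) (v : Fin N) : Prop :=
  TDef.Tab ix N a () (Sum.elim s fun _ => v)

variable {C : ℕ → Arr (Option Unit) → Prop} {κ : Type} [DecidableEq κ]

theorem td_inj {m : ℕ} (f : Fin m → κ) :
    TDef ix C κ (fun _ _ e => Injective fun i => e (f i)) :=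
  TDef.forall' fun i => TDef.forall' fun j => (TDef.eq (f i) (f j)).imp (TDef.const (i = j))

theorem td_cl (f : Fin 14 → κ) (x : κ) :
    TDef ix C κ (fun N a e => tcl N a (fun i => e (f i)) (e x)) := by
  refine (TDef.tab () (Sum.elim f fun _ => x)).congr ?_
  intro N a e _
  unfold tcl
  refine iff_of_eq (congrArg (TDef.Tab ix N a ()) ?_)
  funext i
  cases i <;> rfl

theorem td_seed (f : Fin 14 → κ) :
    TDef ix C κ (fun N a e => SeedR (TDef.Adj N a) fun i => e (f i)) :=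
  (td_inj f).and (TDef.forall' fun i => TDef.forall' fun j =>
    (TDef.const _).imp ((TDef.const _).imp (TDef.adj (f i) (f j))))

theorem td_glue (f g : Fin 14 → κ) :
    TDef ix C κ (fun N a e => GlueR (TDef.Adj N a) (tcl N a fun i => e (f i))
      (tcl N a fun i => e (g i))) := by
  refine TDef.exists' fun c => ?_
  set m := (4 - (c : ℕ)).choose 2 with hm
  have h : TDef ix C (((κ ⊕ Fin c) ⊕ Fin m) ⊕ Fin m) (fun N A e =>
      ((Injective fun i : Fin c => e (.inl (.inl (.inr i)))) ∧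
        ∀ i : Fin c, tcl N A (fun z => e (.inl (.inl (.inl (f z))))) (e (.inl (.inl (.inr i)))) ∧
          tcl N A (fun z => e (.inl (.inl (.inl (g z))))) (e (.inl (.inl (.inr i))))) ∧
      (∀ i : Fin m, tcl N A (fun z => e (.inl (.inl (.inl (f z))))) (e (.inl (.inr i))) ∧
        ¬ tcl N A (fun z => e (.inl (.inl (.inl (g z))))) (e (.inl (.inr i))) ∧
        tcl N A (fun z => e (.inl (.inl (.inl (g z))))) (e (.inr i)) ∧
        ¬ tcl N A (fun z => e (.inl (.inl (.inl (f z))))) (e (.inr i)) ∧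
        TDef.Adj N A (e (.inl (.inr i))) (e (.inr i))) ∧
      (∀ i j : Fin m, e (.inl (.inr i)) = e (.inl (.inr j)) → e (.inr i) = e (.inr j) → i = j) ∧
      (∀ i j l : Fin m, e (.inl (.inr i)) = e (.inl (.inr j)) →
        e (.inl (.inr i)) = e (.inl (.inr l)) → i = j ∨ i = l ∨ j = l) ∧
      (∀ i j l : Fin m, e (.inr i) = e (.inr j) → e (.inr i) = e (.inr l) →
        i = j ∨ i = l ∨ j = l)) := by
    refine (TDef.and (td_inj _) (TDef.forall' fun i => (td_cl _ _).and (td_cl _ _))).and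
      ((TDef.forall' fun i => (td_cl _ _).and ((td_cl _ _).not.and ((td_cl _ _).and
        ((td_cl _ _).not.and (TDef.adj _ _))))).and
      ((TDef.forall' fun i => TDef.forall' fun j => (TDef.eq _ _).imp ((TDef.eq _ _).imp
        (TDef.const _))).and
      ((TDef.forall' fun i => TDef.forall' fun j => TDef.forall' fun l =>
        (TDef.eq _ _).imp ((TDef.eq _ _).imp (TDef.const _))).and
      (TDef.forall' fun i => TDef.forall' fun j => TDef.forall' fun l =>
        (TDef.eq _ _).imp ((TDef.eq _ _).imp (TDef.const _))))))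
  exact h.ex.ex.ex

theorem td_step (f : Fin 14 → κ) (x : κ) :
    TDef ix C κ (fun N a e => StepR (TDef.Adj N a) (tcl N a) (fun i => e (f i)) (e x)) := by
  have h2 : TDef ix C (κ ⊕ Fin 3) (fun N a e => (Injective fun i : Fin 3 => e (.inr i)) ∧
      ∀ i : Fin 3, tcl N a (fun z => e (.inl (f z))) (e (.inr i)) ∧
        TDef.Adj N a (e (.inl x)) (e (.inr i))) :=
    (td_inj _).and (TDef.forall' fun i => (td_cl _ _).and (TDef.adj _ _))
  have h3 : TDef ix C (κ ⊕ Fin 14) (fun N a e => (SeedR (TDef.Adj N a) fun i => e (.inr i)) ∧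
      tcl N a (fun i => e (.inr i)) (e (.inl x)) ∧
      GlueR (TDef.Adj N a) (tcl N a fun i => e (.inl (f i))) (tcl N a fun i => e (.inr i))) :=
    (td_seed _).and ((td_cl _ _).and (td_glue _ _))
  exact (td_seed f).and ((TDef.exists' fun i => TDef.eq x (f i)).or (h2.ex.or h3.ex))

theorem td_big (k : ℕ) (f : Fin 14 → κ) :
    TDef ix C κ (fun N a e => BigSeedR (TDef.Adj N a) k (tcl N a) fun i => e (f i)) := by
  have h : TDef ix C (κ ⊕ Fin (2 * k + 3)) (fun N a e =>
      (Injective fun i : Fin (2 * k + 3) => e (.inr i)) ∧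
        ∀ i : Fin (2 * k + 3), tcl N a (fun z => e (.inl (f z))) (e (.inr i))) :=
    (td_inj _).and (TDef.forall' fun i => td_cl _ _)
  exact (td_seed f).and h.ex

theorem td_accept (k : ℕ) :
    TDef ix C κ (fun N a _ => AcceptR (TDef.Adj N a) k (tcl N a)) := by
  refine TDef.exists' fun m => TDef.exists' fun H => (TDef.const _).and ?_
  -- cover
  have h1 : TDef ix C (κ ⊕ Fin m) (fun N a _ => ∀ v : Fin N, ∃ t : Fin 14 → Fin N,
      BigSeedR (TDef.Adj N a) k (tcl N a) t ∧ tcl N a t v) := by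
    have h : TDef ix C (((κ ⊕ Fin m) ⊕ Unit) ⊕ Fin 14) (fun N a e =>
        (BigSeedR (TDef.Adj N a) k (tcl N a) fun i => e (.inr i)) ∧
          tcl N a (fun i => e (.inr i)) (e (.inl (.inr ())))) :=
      (td_big k _).and (td_cl _ _)
    exact h.ex.all1
  -- three vertices of each cluster
  have h2 : TDef ix C (κ ⊕ Fin m) (fun N a e => ∀ t : Fin 14 → Fin N,
      BigSeedR (TDef.Adj N a) k (tcl N a) t → ∃ i j l : Fin m, i ≠ j ∧ i ≠ l ∧ j ≠ l ∧
        tcl N a t (e (.inr i)) ∧ tcl N a t (e (.inr j)) ∧ tcl N a t (e (.inr l))) := by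
    have h : TDef ix C ((κ ⊕ Fin m) ⊕ Fin 14) (fun N a e =>
        (BigSeedR (TDef.Adj N a) k (tcl N a) fun i => e (.inr i)) →
          ∃ i j l : Fin m, i ≠ j ∧ i ≠ l ∧ j ≠ l ∧
            tcl N a (fun z => e (.inr z)) (e (.inl (.inr i))) ∧
            tcl N a (fun z => e (.inr z)) (e (.inl (.inr j))) ∧
            tcl N a (fun z => e (.inr z)) (e (.inl (.inr l)))) :=
      (td_big k _).imp (TDef.exists' fun i => TDef.exists' fun j => TDef.exists' fun l =>
        (TDef.const _).and ((TDef.const _).and ((TDef.const _).and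
          ((td_cl _ _).and ((td_cl _ _).and (td_cl _ _))))))
    exact h.all
  -- common vertices
  have h3 : TDef ix C (κ ⊕ Fin m) (fun N a e => ∀ s t : Fin 14 → Fin N,
      BigSeedR (TDef.Adj N a) k (tcl N a) s → BigSeedR (TDef.Adj N a) k (tcl N a) t →
        ¬ (∀ u : Fin N, tcl N a s u ↔ tcl N a t u) →
        ∀ v : Fin N, tcl N a s v → tcl N a t v → ∃ i : Fin m, v = e (.inr i)) := by
    have hu : TDef ix C ((((κ ⊕ Fin m) ⊕ Fin 14) ⊕ Fin 14) ⊕ Unit) (fun N a e =>
        (tcl N a (fun z => e (.inl (.inl (.inr z)))) (e (.inr ())) ↔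
          tcl N a (fun z => e (.inl (.inr z))) (e (.inr ())))) := (td_cl _ _).iff (td_cl _ _)
    have hv : TDef ix C ((((κ ⊕ Fin m) ⊕ Fin 14) ⊕ Fin 14) ⊕ Unit) (fun N a e =>
        tcl N a (fun z => e (.inl (.inl (.inr z)))) (e (.inr ())) →
          tcl N a (fun z => e (.inl (.inr z))) (e (.inr ())) →
          ∃ i : Fin m, e (.inr ()) = e (.inl (.inl (.inl (.inr i))))) :=
      (td_cl _ _).imp ((td_cl _ _).imp (TDef.exists' fun i => TDef.eq _ _))
    have h : TDef ix C (((κ ⊕ Fin m) ⊕ Fin 14) ⊕ Fin 14) (fun N a e =>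
        (BigSeedR (TDef.Adj N a) k (tcl N a) fun z => e (.inl (.inr z))) →
        (BigSeedR (TDef.Adj N a) k (tcl N a) fun z => e (.inr z)) →
        ¬ (∀ u : Fin N, tcl N a (fun z => e (.inl (.inr z))) u ↔ tcl N a (fun z => e (.inr z)) u) →
        ∀ v : Fin N, tcl N a (fun z => e (.inl (.inr z))) v → tcl N a (fun z => e (.inr z)) v →
          ∃ i : Fin m, v = e (.inl (.inl (.inr i)))) :=
      (td_big k _).imp ((td_big k _).imp (hu.all1.not.imp hv.all1))
    exact h.all.all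
  -- ends of edges outside the clusters
  have h4 : TDef ix C (κ ⊕ Fin m) (fun N a e => ∀ v w : Fin N, TDef.Adj N a v w →
      (∀ t : Fin 14 → Fin N, BigSeedR (TDef.Adj N a) k (tcl N a) t →
        ¬ (tcl N a t v ∧ tcl N a t w)) →
        (∃ i : Fin m, v = e (.inr i)) ∧ ∃ i : Fin m, w = e (.inr i)) := by
    have ht : TDef ix C ((((κ ⊕ Fin m) ⊕ Unit) ⊕ Unit) ⊕ Fin 14) (fun N a e =>
        (BigSeedR (TDef.Adj N a) k (tcl N a) fun z => e (.inr z)) →
          ¬ (tcl N a (fun z => e (.inr z)) (e (.inl (.inl (.inr ())))) ∧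
            tcl N a (fun z => e (.inr z)) (e (.inl (.inr ()))))) :=
      (td_big k _).imp ((td_cl _ _).and (td_cl _ _)).not
    have h : TDef ix C (((κ ⊕ Fin m) ⊕ Unit) ⊕ Unit) (fun N a e =>
        TDef.Adj N a (e (.inl (.inr ()))) (e (.inr ())) →
        (∀ t : Fin 14 → Fin N, BigSeedR (TDef.Adj N a) k (tcl N a) t →
          ¬ (tcl N a t (e (.inl (.inr ()))) ∧ tcl N a t (e (.inr ())))) →
        (∃ i : Fin m, e (.inl (.inr ())) = e (.inl (.inl (.inr i)))) ∧
          ∃ i : Fin m, e (.inr ()) = e (.inl (.inl (.inr i)))) :=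
      (TDef.adj _ _).imp (ht.all.imp
        ((TDef.exists' fun i => TDef.eq _ _).and (TDef.exists' fun i => TDef.eq _ _)))
    exact h.all1.all1
  -- the kernel graph
  have h5 : TDef ix C (κ ⊕ Fin m) (fun N a e => ∀ i j : Fin m, H.Adj i j ↔
      (e (.inr i) ≠ e (.inr j) ∧ (TDef.Adj N a (e (.inr i)) (e (.inr j)) ∨
        ∃ t : Fin 14 → Fin N, BigSeedR (TDef.Adj N a) k (tcl N a) t ∧
          tcl N a t (e (.inr i)) ∧ tcl N a t (e (.inr j))))) := by
    refine TDef.forall' fun i => TDef.forall' fun j => (TDef.const _).iff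
      ((TDef.eq _ _).not.and ((TDef.adj _ _).or ?_))
    have ht : TDef ix C ((κ ⊕ Fin m) ⊕ Fin 14) (fun N a e =>
        (BigSeedR (TDef.Adj N a) k (tcl N a) fun z => e (.inr z)) ∧
          tcl N a (fun z => e (.inr z)) (e (.inl (.inr i))) ∧
            tcl N a (fun z => e (.inr z)) (e (.inl (.inr j)))) :=
      (td_big k _).and ((td_cl _ _).and (td_cl _ _))
    exact ht.ex
  exact TDef.ex ((td_inj fun i : Fin m => (Sum.inr i : κ ⊕ Fin m)).and (h1.and (h2.and (h3.and (h4.and h5)))))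

end Pool.Agent.Lib.MP_37c7bf_co_Poly
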