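import Pool.Agent.Lib.MP_37c7bf_co_Poly.Formulas

/-! # The Turing machine for dense graphs -/

namespace Pool.Agent.Lib.MP_37c7bf_co_Poly

open Pool.Agent.Lib.PolyTM Pool.Agent.Lib.FOLFP Function Turing

/-! ### The machine -/

theorem split_eta {N : ℕ} (E : ix () → Fin N) :
    Sum.elim (fun i => E (.inl i)) (fun _ => E (.inr ())) = E := by
  funext i
  cases i <;> rfl

theorem machine (k n₀ : ℕ) (small : ∀ n, SimpleGraph (Fin n) → Prop) :
    ∃ (f : Graph → List Bool) (M : TM2ComputableInPolyTime Graph.encode id f),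
      (∀ k, Finite (M.tm.Γ k)) ∧ ∀ I : Graph, ∃ (cl : (Fin 14 → Fin I.n) → Fin I.n → Prop)
        (b : Bool), IsClosure I.G cl ∧ f I = [b] ∧
        (b = true ↔ (I.n < n₀ ∧ small I.n I.G) ∨ (n₀ ≤ I.n ∧ Accept I.G k cl)) := by
  have s1 := tlfp_step (C := fun _ _ => True) (ι := ix) ()
    (td_step (C := fun _ _ => True) (κ := ix ()) Sum.inl (Sum.inr ()))
    (fun _ _ _ _ _ => trivial)
  have hfin : TDef ix (fun _ _ => True) Empty (fun N a _ =>
      SmallCase n₀ small N (BAdj N a) ∨ (¬ N < n₀ ∧ AcceptR (TDef.Adj N a) k (tcl N a))) := by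
    refine (TDef.of_bdef (bd_small n₀ small) fun _ _ _ _ => Iff.rfl).or
      (((TDef.of_bdef (bd_lt_card (n₀ - 1)) fun _ _ _ _ => Iff.rfl).or
        (TDef.const (n₀ = 0))).congr ?_ |>.and (td_accept k))
    intro N a e _
    change (n₀ - 1 < N ∨ n₀ = 0) ↔ ¬ N < n₀
    omega
  have s2 := temit_step (ι := ix) hfin
  obtain ⟨f, M, hM, hf⟩ := machine_of_PDef (s1.seq s2)
  refine ⟨f, M, hM, fun I => ?_⟩
  obtain ⟨τ, ⟨ρ, q1, q2⟩, hfI⟩ := hf I
  have e0 : ∀ l : List ℕ, mn (init Unit I) (some ()) l = false := fun l => init_some I () l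
  obtain ⟨o1, u1, c1, c2⟩ := q1 trivial e0
  have hadj : BAdj I.n (mn ρ) = adjN I := by
    funext x y
    apply propext
    rw [← init_adj (W1 := Unit) I x y]
    unfold BAdj
    rw [u1 none (by simp)]
  have htadj := adj_typed hadj
  obtain ⟨b, hb1, hb2⟩ := q2 trivial
  refine ⟨tcl I.n (mn ρ), b, ⟨?_, ?_⟩, ?_, ?_⟩
  · intro s v hstep
    have := c1 (Sum.elim s fun _ => v) (by
      rw [htadj]
      exact hstep)
    exact this
  · intro P hP s v hcl
    have := c2 (fun E => P (fun i => E (.inl i)) (E (.inr ()))) ?_ (Sum.elim s fun _ => v) hcl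
    · exact this
    · intro M' hM' hMP E hE
      have hadj' : TDef.Adj I.n M' = I.G.Adj := by
        rw [← htadj]
        funext x y
        unfold TDef.Adj BAdj
        rw [hM' none (by simp)]
      rw [hadj'] at hE
      refine hP (tcl I.n M') ?_ _ _ hE
      intro s v hsv
      exact hMP (Sum.elim s fun _ => v) hsv
  · rw [hfI, hb1, o1]
    rfl
  · rw [hb2, hadj, smallCase_iff, htadj, not_lt, acceptR_iff]

end Pool.Agent.Lib.MP_37c7bf_co_Poly
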